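import Mathlib

set_option autoImplicit false

open scoped Pointwise

namespace Pool.Agent.Lib.MP_f431e1_al

variable {G : Type} [Group G] {A : Type}

/-- evaluation of a word -/
def ev (f : A → G) (w : List A) : G := (w.map f).prod

@[simp] theorem ev_nil (f : A → G) : ev f [] = 1 := rfl

@[simp] theorem ev_cons (f : A → G) (a : A) (w : List A) : ev f (a :: w) = f a * ev f w := by
  simp [ev]

@[simp] theorem ev_append (f : A → G) (u v : List A) : ev f (u ++ v) = ev f u * ev f v := by
  simp [ev]

/-- the padded pair, recursively -/
def padr : List A → List A → List (Option A × Option A)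
  | [], [] => []
  | a :: u, [] => (some a, none) :: padr u []
  | [], b :: v => (none, some b) :: padr [] v
  | a :: u, b :: v => (some a, some b) :: padr u v

theorem padr_length (u v : List A) : (padr u v).length = max u.length v.length := by
  fun_induction padr u v with
  | case1 => simp
  | case2 a u ih => simp [ih]
  | case3 b v ih => simp [ih]
  | case4 a u b v ih => simp [ih]

theorem padr_getElem? (u v : List A) (i : ℕ) (h : i < max u.length v.length) :
    (padr u v)[i]? = some (u[i]?, v[i]?) := by
  induction u, v using padr.induct generalizing i with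
  | case1 => simp at h
  | case2 a u ih =>
    cases i with
    | zero => simp [padr]
    | succ i =>
      have := ih i (by simpa using h)
      simpa [padr] using this
  | case3 b v ih =>
    cases i with
    | zero => simp [padr]
    | succ i =>
      have := ih i (by simpa using h)
      simpa [padr] using this
  | case4 a u b v ih =>
    cases i with
    | zero => simp [padr]
    | succ i =>
      have := ih i (by simpa using h)
      simpa [padr] using this

theorem padr_eq_ofFn (u v : List A) :
    padr u v = List.ofFn (fun i : Fin (max u.length v.length) => (u[(i : ℕ)]?, v[(i : ℕ)]?)) := by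
  apply List.ext_getElem?
  intro i
  by_cases h : i < max u.length v.length
  · rw [padr_getElem? u v i h]
    simp [h]
  · rw [List.getElem?_eq_none (by rw [padr_length]; omega)]
    simp [h]

@[simp] theorem padr_fst (u v : List A) : (padr u v).filterMap Prod.fst = u := by
  fun_induction padr u v with
  | case1 => simp
  | case2 a u ih => simp [ih]
  | case3 b v ih => simp [ih]
  | case4 a u b v ih => simp [ih]

@[simp] theorem padr_snd (u v : List A) : (padr u v).filterMap Prod.snd = v := by
  fun_induction padr u v with
  | case1 => simp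
  | case2 a u ih => simp [ih]
  | case3 b v ih => simp [ih]
  | case4 a u b v ih => simp [ih]

theorem padr_take_fst (u v : List A) (t : ℕ) :
    ((padr u v).take t).filterMap Prod.fst = u.take t := by
  induction u, v using padr.induct generalizing t with
  | case1 => simp [padr]
  | case2 a u ih => cases t <;> simp [padr, ih]
  | case3 b v ih =>
    cases t with
    | zero => simp
    | succ t => simpa [padr] using ih t
  | case4 a u b v ih => cases t <;> simp [padr, ih]

theorem padr_take_snd (u v : List A) (t : ℕ) :
    ((padr u v).take t).filterMap Prod.snd = v.take t := by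
  induction u, v using padr.induct generalizing t with
  | case1 => simp [padr]
  | case2 a u ih =>
    cases t with
    | zero => simp
    | succ t => simpa [padr] using ih t
  | case3 b v ih => cases t <;> simp [padr, ih]
  | case4 a u b v ih => cases t <;> simp [padr, ih]

/-- fellow traveller property with respect to right multiplication by `g` -/
def FT (f : A → G) (L : Set (List A)) (g : G) : Prop :=
  ∃ F : Set G, F.Finite ∧ ∀ u ∈ L, ∀ v ∈ L, ev f u * g = ev f v →
    ∀ t : ℕ, (ev f (u.take t))⁻¹ * ev f (v.take t) ∈ F

theorem FT.mono {f : A → G} {L L' : Set (List A)} {g : G} (h : FT f L g) (hL : L' ⊆ L) :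
    FT f L' g := by
  obtain ⟨F, hF, h⟩ := h
  exact ⟨F, hF, fun u hu v hv => h u (hL hu) v (hL hv)⟩

theorem FT.mul {f : A → G} {L : Set (List A)} {g h : G} (hg : FT f L g) (hh : FT f L h)
    (hs : ∀ g : G, ∃ w ∈ L, ev f w = g) : FT f L (g * h) := by
  obtain ⟨F, hF, hg⟩ := hg
  obtain ⟨F', hF', hh⟩ := hh
  refine ⟨F * F', hF.mul hF', ?_⟩
  intro u hu v hv huv t
  obtain ⟨w, hw, hw'⟩ := hs (ev f u * g)
  have h1 := hg u hu w hw hw'.symm t
  have h2 := hh w hw v hv (by rw [hw', mul_assoc, huv]) t
  refine Set.mem_mul.2 ⟨_, h1, _, h2, ?_⟩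
  group

theorem FT.one {f : A → G} {L : Set (List A)}
    (hu : ∀ u ∈ L, ∀ v ∈ L, ev f u = ev f v → u = v) : FT f L 1 := by
  refine ⟨{1}, Set.finite_singleton 1, ?_⟩
  intro u hu' v hv huv t
  have := hu u hu' v hv (by simpa using huv)
  subst this
  simp

theorem FT.all {f : A → G} {L : Set (List A)}
    (hu : ∀ u ∈ L, ∀ v ∈ L, ev f u = ev f v → u = v)
    (hs : ∀ g : G, ∃ w ∈ L, ev f w = g) (hft : ∀ a : A, FT f L (f a)) (g : G) : FT f L g := by
  obtain ⟨w, -, hw⟩ := hs g
  subst hw
  induction w with
  | nil => simpa using FT.one hu
  | cons a w ih =>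
    rw [ev_cons]
    exact (hft a).mul ih hs

/-- a DFA for the relation gives the fellow traveller property -/
theorem FT.of_dfa {f : A → G} {L : Set (List A)} {g : G} {σ : Type} [Finite σ]
    (M : DFA (Option A × Option A) σ)
    (hM : ∀ p, p ∈ M.accepts ↔ ∃ u ∈ L, ∃ v ∈ L, ev f u * g = ev f v ∧ p = padr u v) :
    FT f L g := by
  classical
  let q : σ → List (Option A × Option A) := fun s =>
    if h : ∃ q, M.evalFrom s q ∈ M.accept then h.choose else []
  refine ⟨Set.range (fun s => ev f ((q s).filterMap Prod.fst) * g *
    (ev f ((q s).filterMap Prod.snd))⁻¹), Set.finite_range _, ?_⟩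
  intro u hu v hv huv t
  have hacc : padr u v ∈ M.accepts := (hM _).2 ⟨u, hu, v, hv, huv, rfl⟩
  set p := padr u v with hp
  set s := M.eval (p.take t) with hs
  have hex : ∃ q, M.evalFrom s q ∈ M.accept := by
    refine ⟨p.drop t, ?_⟩
    rw [hs, DFA.eval, ← DFA.evalFrom_of_append, List.take_append_drop]
    exact hacc
  have hq : M.evalFrom s (q s) ∈ M.accept := by
    simp only [q, dif_pos hex]
    exact hex.choose_spec
  have hacc2 : p.take t ++ q s ∈ M.accepts := by
    rw [DFA.mem_accepts, DFA.eval, DFA.evalFrom_of_append]
    exact hq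
  obtain ⟨u', hu', v', hv', huv', hpe⟩ := (hM _).1 hacc2
  have e1 : u' = u.take t ++ (q s).filterMap Prod.fst := by
    have := congrArg (List.filterMap Prod.fst) hpe
    rw [padr_fst, List.filterMap_append, hp, padr_take_fst] at this
    exact this.symm
  have e2 : v' = v.take t ++ (q s).filterMap Prod.snd := by
    have := congrArg (List.filterMap Prod.snd) hpe
    rw [padr_snd, List.filterMap_append, hp, padr_take_snd] at this
    exact this.symm
  refine ⟨s, ?_⟩
  simp only
  rw [e1, e2, ev_append, ev_append] at huv'
  rw [eq_inv_mul_iff_mul_eq, ← mul_assoc, mul_inv_eq_iff_eq_mul]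
  rw [← huv']
  group

end Pool.Agent.Lib.MP_f431e1_al
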