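import Mathlib
import Pool.Agent.Lib.MP_f431e1_al.Basic

set_option autoImplicit false

open scoped Pointwise

namespace Pool.Agent.Lib.MP_f431e1_al

variable {G : Type} [Group G] {A : Type}

section FTDfa

variable {σ : Type}

open Classical in
/-- step of the synchronous product automaton with difference in `F` -/
noncomputable def syncStep (f : A → G) (M : DFA A σ) (F : Set G) :
    Option ((σ × Bool) × (σ × Bool) × F) → Option A × Option A →
      Option ((σ × Bool) × (σ × Bool) × F)
  | some ((s, false), (s', false), d), (some a, some b) =>
      if h : (f a)⁻¹ * (d : G) * f b ∈ F then
        some ((M.step s a, false), (M.step s' b, false), ⟨_, h⟩) else none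
  | some ((s, false), (s', _), d), (some a, none) =>
      if h : (f a)⁻¹ * (d : G) ∈ F then
        some ((M.step s a, false), (s', true), ⟨_, h⟩) else none
  | some ((s, _), (s', false), d), (none, some b) =>
      if h : (d : G) * f b ∈ F then
        some ((s, true), (M.step s' b, false), ⟨_, h⟩) else none
  | _, _ => none

/-- The relation recognised from a state of the synchronous product. -/
def SyncRel (f : A → G) (M : DFA A σ) (F : Set G) (g : G)
    (s : σ) (e : Bool) (s' : σ) (e' : Bool) (d : G) (p : List (Option A × Option A)) : Prop :=
  ∃ u v, p = padr u v ∧ (e = true → u = []) ∧ (e' = true → v = []) ∧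
    M.evalFrom s u ∈ M.accept ∧ M.evalFrom s' v ∈ M.accept ∧
    (∀ t : ℕ, (ev f (u.take t))⁻¹ * d * ev f (v.take t) ∈ F) ∧
    (ev f u)⁻¹ * d * ev f v = g

/-- the synchronous automaton -/
noncomputable def syncDfa (f : A → G) (M : DFA A σ) (F : Set G) (g : G) (h1 : (1 : G) ∈ F) :
    DFA (Option A × Option A) (Option ((σ × Bool) × (σ × Bool) × F)) where
  step := syncStep f M F
  start := some ((M.start, false), (M.start, false), ⟨1, h1⟩)
  accept := {x | ∃ s e s' e' d, x = some ((s, e), (s', e'), d) ∧ s ∈ M.accept ∧ s' ∈ M.accept ∧
    (d : G) = g}

theorem syncDfa_none (f : A → G) (M : DFA A σ) (F : Set G) (g : G) (h1 : (1 : G) ∈ F)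
    (p : List (Option A × Option A)) :
    (syncDfa f M F g h1).evalFrom none p = none := by
  induction p with
  | nil => rfl
  | cons x p ih =>
    rw [DFA.evalFrom_cons]
    have : (syncDfa f M F g h1).step none x = none := by
      rcases x with ⟨_ | a, _ | b⟩ <;> rfl
    rw [this, ih]

theorem none_not_accept (f : A → G) (M : DFA A σ) (F : Set G) (g : G) (h1 : (1 : G) ∈ F) :
    none ∉ (syncDfa f M F g h1).accept := by
  rintro ⟨s, e, s', e', d, h, -⟩
  exact absurd h (by simp)

theorem syncDfa_correct (f : A → G) (M : DFA A σ) (F : Set G) (g : G) (h1 : (1 : G) ∈ F)
    (s : σ) (e : Bool) (s' : σ) (e' : Bool) (d : F) (hee : ¬ (e = true ∧ e' = true))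
    (p : List (Option A × Option A)) :
    (syncDfa f M F g h1).evalFrom (some ((s, e), (s', e'), d)) p ∈ (syncDfa f M F g h1).accept ↔
      SyncRel f M F g s e s' e' d p := by
  induction p generalizing s e s' e' d with
  | nil =>
    constructor
    · rintro ⟨t, k, t', k', d', h, h2, h3, h4⟩
      simp only [DFA.evalFrom_nil, Option.some.injEq, Prod.mk.injEq] at h
      obtain ⟨⟨rfl, rfl⟩, ⟨rfl, rfl⟩, rfl⟩ := h
      exact ⟨[], [], by simp [padr], by simp, by simp, by simpa using h2, by simpa using h3,
        by simp, by simpa using h4⟩
    · rintro ⟨u, v, hp, hu, hv, h2, h3, h4, h5⟩
      have hu' : u = [] := by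
        have := congrArg (List.filterMap Prod.fst) hp
        simpa using this.symm
      have hv' : v = [] := by
        have := congrArg (List.filterMap Prod.snd) hp
        simpa using this.symm
      subst hu' hv'
      exact ⟨s, e, s', e', d, rfl, by simpa using h2, by simpa using h3, by simpa using h5⟩
  | cons x p ih =>
    rw [DFA.evalFrom_cons]
    rcases x with ⟨_ | a, _ | b⟩
    · -- none none
      have hst : (syncDfa f M F g h1).step (some ((s, e), (s', e'), d)) (none, none) = none := by
        cases e <;> cases e' <;> rfl
      rw [hst, syncDfa_none]
      constructor
      · intro h; exact absurd h (none_not_accept f M F g h1)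
      · rintro ⟨u, v, hp, -⟩
        cases u <;> cases v <;> simp [padr] at hp
    · -- none, some b
      cases e' with
      | true =>
        have hst : (syncDfa f M F g h1).step (some ((s, e), (s', true), d)) (none, some b) = none := by
          cases e <;> rfl
        rw [hst, syncDfa_none]
        constructor
        · intro h; exact absurd h (none_not_accept f M F g h1)
        · rintro ⟨u, v, hp, hu, hv, -⟩
          have := hv rfl
          subst this
          cases u <;> simp [padr] at hp
      | false =>
        by_cases hF : (d : G) * f b ∈ F
        · have hst : (syncDfa f M F g h1).step (some ((s, e), (s', false), d)) (none, some b) =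
              some ((s, true), (M.step s' b, false), ⟨_, hF⟩) := by
            cases e <;> simp [syncDfa, syncStep, hF]
          rw [hst, ih _ _ _ _ _ (by simp)]
          constructor
          · rintro ⟨u, v, hp, hu, hv, h2, h3, h4, h5⟩
            have hu' := hu rfl
            subst hu'
            refine ⟨[], b :: v, by simp [padr, hp], by simp, by simp, by simpa using h2,
              by simpa using h3, ?_, ?_⟩
            · intro t
              cases t with
              | zero => simp
              | succ t => simpa [mul_assoc] using h4 t
            · simpa [mul_assoc] using h5
          · rintro ⟨u, v, hp, hu, hv, h2, h3, h4, h5⟩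
            cases u with
            | cons a u => cases v <;> simp [padr] at hp
            | nil =>
              cases v with
              | nil => simp [padr] at hp
              | cons b' v =>
                simp only [padr, List.cons.injEq, Prod.mk.injEq, Option.some.injEq, true_and] at hp
                obtain ⟨rfl, rfl⟩ := hp
                refine ⟨[], v, rfl, by simp, by simp, by simpa using h2, by simpa using h3, ?_, ?_⟩
                · intro t
                  simpa [mul_assoc] using h4 (t + 1)
                · simpa [mul_assoc] using h5
        · have hst : (syncDfa f M F g h1).step (some ((s, e), (s', false), d)) (none, some b) =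
              none := by
            cases e <;> simp [syncDfa, syncStep, hF]
          rw [hst, syncDfa_none]
          constructor
          · intro h; exact absurd h (none_not_accept f M F g h1)
          · rintro ⟨u, v, hp, hu, hv, h2, h3, h4, h5⟩
            exfalso
            cases u with
            | cons a u => cases v <;> simp [padr] at hp
            | nil =>
              cases v with
              | nil => simp [padr] at hp
              | cons b' v =>
                simp only [padr, List.cons.injEq, Prod.mk.injEq, Option.some.injEq, true_and] at hp
                obtain ⟨rfl, rfl⟩ := hp
                exact hF (by simpa using h4 1)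
    · -- some a, none
      cases e with
      | true =>
        have hst : (syncDfa f M F g h1).step (some ((s, true), (s', e'), d)) (some a, none) = none := by
          cases e' <;> rfl
        rw [hst, syncDfa_none]
        constructor
        · intro h; exact absurd h (none_not_accept f M F g h1)
        · rintro ⟨u, v, hp, hu, hv, -⟩
          have := hu rfl
          subst this
          cases v <;> simp [padr] at hp
      | false =>
        by_cases hF : (f a)⁻¹ * (d : G) ∈ F
        · have hst : (syncDfa f M F g h1).step (some ((s, false), (s', e'), d)) (some a, none) =
              some ((M.step s a, false), (s', true), ⟨_, hF⟩) := by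
            cases e' <;> simp [syncDfa, syncStep, hF]
          rw [hst, ih _ _ _ _ _ (by simp)]
          constructor
          · rintro ⟨u, v, hp, hu, hv, h2, h3, h4, h5⟩
            have hv' := hv rfl
            subst hv'
            refine ⟨a :: u, [], by simp [padr, hp], by simp, by simp, by simpa using h2,
              by simpa using h3, ?_, ?_⟩
            · intro t
              cases t with
              | zero => simp
              | succ t => simpa [mul_assoc] using h4 t
            · simpa [mul_assoc] using h5
          · rintro ⟨u, v, hp, hu, hv, h2, h3, h4, h5⟩
            cases v with
            | cons b v => cases u <;> simp [padr] at hp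
            | nil =>
              cases u with
              | nil => simp [padr] at hp
              | cons a' u =>
                simp only [padr, List.cons.injEq, Prod.mk.injEq, Option.some.injEq, and_true] at hp
                obtain ⟨rfl, rfl⟩ := hp
                refine ⟨u, [], rfl, by simp, by simp, by simpa using h2, by simpa using h3, ?_, ?_⟩
                · intro t
                  simpa [mul_assoc] using h4 (t + 1)
                · simpa [mul_assoc] using h5
        · have hst : (syncDfa f M F g h1).step (some ((s, false), (s', e'), d)) (some a, none) =
              none := by
            cases e' <;> simp [syncDfa, syncStep, hF]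
          rw [hst, syncDfa_none]
          constructor
          · intro h; exact absurd h (none_not_accept f M F g h1)
          · rintro ⟨u, v, hp, hu, hv, h2, h3, h4, h5⟩
            exfalso
            cases v with
            | cons b v => cases u <;> simp [padr] at hp
            | nil =>
              cases u with
              | nil => simp [padr] at hp
              | cons a' u =>
                simp only [padr, List.cons.injEq, Prod.mk.injEq, Option.some.injEq, and_true] at hp
                obtain ⟨rfl, rfl⟩ := hp
                exact hF (by simpa using h4 1)
    · -- some a, some b
      by_cases hall : e = false ∧ e' = false ∧ (f a)⁻¹ * (d : G) * f b ∈ F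
      · obtain ⟨rfl, rfl, hF⟩ := hall
        have hst : (syncDfa f M F g h1).step (some ((s, false), (s', false), d))
            (some a, some b) = some ((M.step s a, false), (M.step s' b, false), ⟨_, hF⟩) := by
          simp [syncDfa, syncStep, hF]
        rw [hst, ih _ _ _ _ _ (by simp)]
        constructor
        · rintro ⟨u, v, hp, hu, hv, h2, h3, h4, h5⟩
          refine ⟨a :: u, b :: v, by simp [padr, hp], by simp, by simp, by simpa using h2,
            by simpa using h3, ?_, ?_⟩
          · intro t
            cases t with
            | zero => simp
            | succ t => simpa [mul_assoc] using h4 t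
          · simpa [mul_assoc] using h5
        · rintro ⟨u, v, hp, hu, hv, h2, h3, h4, h5⟩
          cases u with
          | nil => cases v <;> simp [padr] at hp
          | cons a' u =>
            cases v with
            | nil => simp [padr] at hp
            | cons b' v =>
              simp only [padr, List.cons.injEq, Prod.mk.injEq, Option.some.injEq] at hp
              obtain ⟨⟨rfl, rfl⟩, rfl⟩ := hp
              refine ⟨u, v, rfl, by simp, by simp, by simpa using h2, by simpa using h3, ?_, ?_⟩
              · intro t
                simpa [mul_assoc] using h4 (t + 1)
              · simpa [mul_assoc] using h5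
      · have hst : (syncDfa f M F g h1).step (some ((s, e), (s', e'), d)) (some a, some b) =
            none := by
          cases e with
          | true => cases e' <;> rfl
          | false =>
            cases e' with
            | true => rfl
            | false =>
              have hF : ¬ (f a)⁻¹ * (d : G) * f b ∈ F := fun hF => hall ⟨rfl, rfl, hF⟩
              simp [syncDfa, syncStep, hF]
        rw [hst, syncDfa_none]
        constructor
        · intro h; exact absurd h (none_not_accept f M F g h1)
        · rintro ⟨u, v, hp, hu, hv, h2, h3, h4, h5⟩
          exfalso
          cases u with
          | nil => cases v <;> simp [padr] at hp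
          | cons a' u =>
            cases v with
            | nil => simp [padr] at hp
            | cons b' v =>
              simp only [padr, List.cons.injEq, Prod.mk.injEq, Option.some.injEq] at hp
              obtain ⟨⟨rfl, rfl⟩, rfl⟩ := hp
              apply hall
              refine ⟨?_, ?_, ?_⟩
              · by_contra h
                have := hu (by simpa using h)
                simp at this
              · by_contra h
                have := hv (by simpa using h)
                simp at this
              · simpa using h4 1

/-- Regular language with the fellow traveller property: the relation is regular. -/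
theorem dfa_of_FT {f : A → G} {L : Language A} {g : G}
    [Finite σ] (M : DFA A σ) (hM : M.accepts = L) (hft : FT f L g) :
    ∃ (τ : Type) (_ : Finite τ) (M' : DFA (Option A × Option A) τ),
      ∀ p, p ∈ M'.accepts ↔ ∃ u ∈ L, ∃ v ∈ L, ev f u * g = ev f v ∧ p = padr u v := by
  obtain ⟨F, hF, h⟩ := hft
  subst hM
  have hF' : (insert (1 : G) F).Finite := hF.insert 1
  have : Finite ↑(insert (1 : G) F) := hF'
  refine ⟨_, ?_, syncDfa f M (insert 1 F) g (Set.mem_insert _ _), ?_⟩
  · infer_instance
  · intro p
    rw [DFA.mem_accepts, DFA.eval]
    have := syncDfa_correct f M (insert 1 F) g (Set.mem_insert _ _) M.start false M.start false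
      ⟨1, Set.mem_insert _ _⟩ (by simp) p
    refine this.trans ?_
    constructor
    · rintro ⟨u, v, hp, -, -, h2, h3, h4, h5⟩
      refine ⟨u, h2, v, h3, ?_, hp⟩
      rw [← h5]; simp
    · rintro ⟨u, hu, v, hv, huv, hp⟩
      refine ⟨u, v, hp, by simp, by simp, hu, hv, ?_, ?_⟩
      · intro t
        right
        simpa using h u hu v hv huv t
      · rw [← huv]; simp

end FTDfa

end Pool.Agent.Lib.MP_f431e1_al
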