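import Mathlib
import Pool.Agent.Lib.MP_f431e1_al.Sync

set_option autoImplicit false

open scoped Pointwise

namespace Pool.Agent.Lib.MP_f431e1_al

variable {G : Type} [Group G] {A : Type}

/-- states of the comparison automaton -/
inductive Cmp : Type
  | eq | lt | gt | short | dead
  deriving DecidableEq

instance : Finite Cmp := by
  have : Finite (Fin 5) := inferInstance
  refine Finite.of_surjective (fun i : Fin 5 =>
    match i with
    | 0 => Cmp.eq
    | 1 => Cmp.lt
    | 2 => Cmp.gt
    | 3 => Cmp.short
    | 4 => Cmp.dead) ?_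
  intro c
  cases c
  · exact ⟨0, rfl⟩
  · exact ⟨1, rfl⟩
  · exact ⟨2, rfl⟩
  · exact ⟨3, rfl⟩
  · exact ⟨4, rfl⟩

/-- step of the comparison automaton; the second component is compared with the first -/
def cmpStep (e : A → ℕ) : Cmp → Option A × Option A → Cmp
  | .eq, (some a, some b) => if e b < e a then .lt else if e b = e a then .eq else .gt
  | .lt, (some _, some _) => .lt
  | .gt, (some _, some _) => .gt
  | .eq, (some _, none) => .short
  | .lt, (some _, none) => .short
  | .gt, (some _, none) => .short
  | .short, (some _, none) => .short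
  | _, _ => .dead

/-- the comparison automaton -/
def cmpDfa (e : A → ℕ) : DFA (Option A × Option A) Cmp where
  step := cmpStep e
  start := .eq
  accept := {.lt, .short}

theorem cmpDfa_dead (e : A → ℕ) (p : List (Option A × Option A)) :
    (cmpDfa e).evalFrom .dead p = .dead := by
  induction p with
  | nil => rfl
  | cons x p ih =>
    rw [DFA.evalFrom_cons]
    have : (cmpDfa e).step .dead x = .dead := by
      rcases x with ⟨_ | a, _ | b⟩ <;> rfl
    rw [this, ih]

theorem dead_not_accept (e : A → ℕ) : Cmp.dead ∉ (cmpDfa e).accept := by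
  simp [cmpDfa]

theorem cmpDfa_nil_right_short (e : A → ℕ) (u : List A) :
    (cmpDfa e).evalFrom .short (padr u []) = .short := by
  induction u with
  | nil => simp [padr]
  | cons a u ih =>
    simp only [padr, DFA.evalFrom_cons]
    exact ih

theorem cmpDfa_nil_right (e : A → ℕ) (c : Cmp) (hc : c ≠ .dead) (u : List A) (hu : u ≠ []) :
    (cmpDfa e).evalFrom c (padr u []) = .short := by
  cases u with
  | nil => exact absurd rfl hu
  | cons a u =>
    simp only [padr, DFA.evalFrom_cons]
    have : (cmpDfa e).step c (some a, none) = .short := by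
      cases c
      · rfl
      · rfl
      · rfl
      · rfl
      · exact absurd rfl hc
    rw [this]
    exact cmpDfa_nil_right_short e u

theorem cmpDfa_nil_left (e : A → ℕ) (c : Cmp) (v : List A) (hv : v ≠ []) :
    (cmpDfa e).evalFrom c (padr [] v) = .dead := by
  cases v with
  | nil => exact absurd rfl hv
  | cons b v =>
    simp only [padr, DFA.evalFrom_cons]
    have : (cmpDfa e).step c (none, some b) = .dead := by
      cases c <;> rfl
    rw [this, cmpDfa_dead]

theorem cmpDfa_lt (e : A → ℕ) (u v : List A) :
    (cmpDfa e).evalFrom .lt (padr u v) ∈ (cmpDfa e).accept ↔ v.length ≤ u.length := by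
  induction u generalizing v with
  | nil =>
    cases v with
    | nil => simp [padr, cmpDfa]
    | cons b v =>
      rw [cmpDfa_nil_left e _ _ (by simp)]
      simp [cmpDfa]
  | cons a u ih =>
    cases v with
    | nil =>
      rw [cmpDfa_nil_right e _ (by simp) _ (by simp)]
      simp [cmpDfa]
    | cons b v =>
      simp only [padr, DFA.evalFrom_cons]
      have : (cmpDfa e).step .lt (some a, some b) = .lt := rfl
      rw [this, ih]
      simp

theorem cmpDfa_gt (e : A → ℕ) (u v : List A) :
    (cmpDfa e).evalFrom .gt (padr u v) ∈ (cmpDfa e).accept ↔ v.length < u.length := by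
  induction u generalizing v with
  | nil =>
    cases v with
    | nil => simp [padr, cmpDfa]
    | cons b v =>
      rw [cmpDfa_nil_left e _ _ (by simp)]
      simp [cmpDfa]
  | cons a u ih =>
    cases v with
    | nil =>
      rw [cmpDfa_nil_right e _ (by simp) _ (by simp)]
      simp [cmpDfa]
    | cons b v =>
      simp only [padr, DFA.evalFrom_cons]
      have : (cmpDfa e).step .gt (some a, some b) = .gt := rfl
      rw [this, ih]
      simp

theorem cmpDfa_correct (e : A → ℕ) (he : Function.Injective e) (u v : List A) :
    (cmpDfa e).evalFrom .eq (padr u v) ∈ (cmpDfa e).accept ↔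
      List.Shortlex (fun a b => e a < e b) v u := by
  induction u generalizing v with
  | nil =>
    cases v with
    | nil => simp [padr, cmpDfa]
    | cons b v =>
      rw [cmpDfa_nil_left e _ _ (by simp)]
      simp [cmpDfa]
  | cons a u ih =>
    cases v with
    | nil =>
      rw [cmpDfa_nil_right e _ (by simp) _ (by simp)]
      have : List.Shortlex (fun a b => e a < e b) [] (a :: u) := List.Shortlex.of_length_lt (by simp)
      simp [cmpDfa, this]
    | cons b v =>
      simp only [padr, DFA.evalFrom_cons]
      rcases lt_trichotomy (e b) (e a) with h | h | h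
      · have : (cmpDfa e).step .eq (some a, some b) = .lt := by
          simp [cmpDfa, cmpStep, h]
        rw [this, cmpDfa_lt, List.shortlex_def]
        simp only [List.length_cons, add_lt_add_iff_right, add_left_inj]
        constructor
        · intro h'
          rcases h'.lt_or_eq with h' | h'
          · exact Or.inl h'
          · exact Or.inr ⟨h', List.Lex.rel h⟩
        · rintro (h' | h')
          · exact h'.le
          · exact h'.1.le
      · have hab : b = a := he h
        subst hab
        have : (cmpDfa e).step .eq (some b, some b) = .eq := by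
          simp [cmpDfa, cmpStep]
        rw [this, ih]
        have : Std.Irrefl (fun a b : A => e a < e b) := ⟨fun a => lt_irrefl _⟩
        rw [List.shortlex_cons_iff]
      · have : (cmpDfa e).step .eq (some a, some b) = .gt := by
          simp [cmpDfa, cmpStep, h.not_gt, h.ne']
        rw [this, cmpDfa_gt, List.shortlex_def]
        simp only [List.length_cons, add_lt_add_iff_right, add_left_inj]
        constructor
        · intro h'
          exact Or.inl h'
        · rintro (h' | ⟨h1, h2⟩)
          · exact h'
          · exfalso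
            cases h2 with
            | rel h' => exact absurd h (by omega)
            | cons h' => exact lt_irrefl _ h

/-- Projection to the first component. -/
def projNfa {σ : Type} (M : DFA (Option A × Option A) σ) : NFA A σ where
  step s a := {t | ∃ ob, t = M.step s (some a, ob)}
  start := {M.start}
  accept := M.accept

theorem projNfa_correct {σ : Type} (M : DFA (Option A × Option A) σ) (S : Set σ) (u : List A) :
    u ∈ (projNfa M).acceptsFrom S ↔
      ∃ s ∈ S, ∃ p : List (Option A × Option A), p.map Prod.fst = u.map some ∧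
        M.evalFrom s p ∈ M.accept := by
  induction u generalizing S with
  | nil =>
    rw [NFA.nil_mem_acceptsFrom]
    constructor
    · rintro ⟨s, hs, hs'⟩
      exact ⟨s, hs, [], by simp, hs'⟩
    · rintro ⟨s, hs, p, hp, hs'⟩
      have : p = [] := by simpa using hp
      subst this
      exact ⟨s, hs, hs'⟩
  | cons a u ih =>
    rw [NFA.cons_mem_acceptsFrom, ih]
    constructor
    · rintro ⟨s, hs, p, hp, hs'⟩
      rw [NFA.mem_stepSet] at hs
      obtain ⟨t, ht, ob, rfl⟩ := hs
      exact ⟨t, ht, (some a, ob) :: p, by simp [hp], hs'⟩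
    · rintro ⟨s, hs, p, hp, hs'⟩
      cases p with
      | nil => simp at hp
      | cons x p =>
        rcases x with ⟨oa, ob⟩
        simp only [List.map_cons, List.cons.injEq] at hp
        obtain ⟨rfl, hp⟩ := hp
        refine ⟨M.step s (some a, ob), ?_, p, hp, hs'⟩
        rw [NFA.mem_stepSet]
        exact ⟨s, hs, ob, rfl⟩

theorem isRegular_proj {σ : Type} [Finite σ] (M : DFA (Option A × Option A) σ) :
    Language.IsRegular (({u | ∃ p ∈ M.accepts, p.map Prod.fst = u.map some} : Set (List A)) :
      Language A) := by
  have : Fintype (Set σ) := Fintype.ofFinite _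
  refine ⟨Set σ, this, (projNfa M).toDFA, ?_⟩
  rw [NFA.toDFA_correct]
  ext u
  rw [NFA.accepts_eq_acceptsFrom_start, projNfa_correct]
  constructor
  · rintro ⟨s, hs, p, hp, hs'⟩
    rw [Set.mem_singleton_iff.1 hs] at hs'
    exact ⟨p, hs', hp⟩
  · rintro ⟨p, hs', hp⟩
    exact ⟨M.start, rfl, p, hp, hs'⟩

theorem padr_map_fst_of_le (u v : List A) (h : v.length ≤ u.length) :
    (padr u v).map Prod.fst = u.map some := by
  induction u generalizing v with
  | nil =>
    cases v with
    | nil => simp [padr]
    | cons b v => simp at h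
  | cons a u ih =>
    cases v with
    | nil => simpa [padr] using ih [] (by simp)
    | cons b v => simpa [padr] using ih v (by simpa using h)

theorem eq_of_padr_map_fst (u v w : List A) (h : (padr u v).map Prod.fst = w.map some) :
    u = w := by
  have := congrArg (List.filterMap id) h
  rw [List.filterMap_map, List.filterMap_map] at this
  have h1 : List.filterMap (id ∘ Prod.fst) (padr u v) = u := padr_fst u v
  rw [h1] at this
  have h2 : List.filterMap (id ∘ some) w = w := by simp
  rw [h2] at this
  exact this

theorem exists_unique_sub [Finite A] {f : A → G} {L : Language A} (hL : L.IsRegular)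
    (hs : ∀ g : G, ∃ w ∈ L, ev f w = g)
    {σ : Type} [Finite σ] (M : DFA (Option A × Option A) σ)
    (hM : ∀ p, p ∈ M.accepts ↔ ∃ u ∈ L, ∃ v ∈ L, ev f u = ev f v ∧ p = padr u v) :
    ∃ L' : Language A, L'.IsRegular ∧ (∀ w ∈ L', w ∈ L) ∧ (∀ g : G, ∃ w ∈ L', ev f w = g) ∧
      (∀ u ∈ L', ∀ v ∈ L', ev f u = ev f v → u = v) := by
  classical
  obtain ⟨n, ⟨e0⟩⟩ := Finite.exists_equiv_fin A
  let e : A → ℕ := fun a => (e0 a : ℕ)
  have he : Function.Injective e := fun a b h => e0.injective (Fin.ext h)
  let r : A → A → Prop := fun a b => e a < e b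
  have hwf : WellFounded r := InvImage.wf e Nat.lt_wfRel.wf
  have hwf' : WellFounded (List.Shortlex r) := List.Shortlex.wf hwf
  have hbad := isRegular_proj (M.inter (cmpDfa e))
  set Bad : Language A :=
    ({u | ∃ p ∈ (M.inter (cmpDfa e)).accepts, p.map Prod.fst = u.map some} : Set (List A)) with hB
  have hbad_iff : ∀ u, u ∈ Bad ↔ u ∈ L ∧ ∃ v ∈ L, ev f u = ev f v ∧ List.Shortlex r v u := by
    intro u
    constructor
    · rintro ⟨p, hp, hpu⟩
      rw [DFA.accepts_inter] at hp
      obtain ⟨hp1, hp2⟩ := hp
      obtain ⟨u', hu', v, hv, huv, rfl⟩ := (hM _).1 hp1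
      have : u' = u := eq_of_padr_map_fst _ _ _ hpu
      subst this
      exact ⟨hu', v, hv, huv, (cmpDfa_correct e he u' v).1 hp2⟩
    · rintro ⟨hu, v, hv, huv, hlt⟩
      refine ⟨padr u v, ?_, ?_⟩
      · rw [DFA.accepts_inter]
        exact ⟨(hM _).2 ⟨u, hu, v, hv, huv, rfl⟩, (cmpDfa_correct e he u v).2 hlt⟩
      · apply padr_map_fst_of_le
        rw [List.shortlex_def] at hlt
        rcases hlt with h | h
        · exact h.le
        · exact h.1.le
  refine ⟨L ⊓ Badᶜ, hL.inf hbad.compl, fun w hw => hw.1, ?_, ?_⟩
  · intro g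
    obtain ⟨w0, hw0, hw0'⟩ := hs g
    let S : Set (List A) := {w | w ∈ L ∧ ev f w = g}
    have hne : S.Nonempty := ⟨w0, hw0, hw0'⟩
    refine ⟨hwf'.min S hne, ⟨(hwf'.min_mem S hne).1, ?_⟩, (hwf'.min_mem S hne).2⟩
    intro hb
    obtain ⟨-, v, hv, hv', hlt⟩ := (hbad_iff _).1 hb
    refine hwf'.not_lt_min S (x := v) ?_ hlt
    exact ⟨hv, by rw [← hv']; exact (hwf'.min_mem S hne).2⟩
  · rintro u ⟨hu, hu'⟩ v ⟨hv, hv'⟩ huv
    have htri : Std.Trichotomous r := ⟨fun a b h1 h2 => he (by simp only [r] at h1 h2; omega)⟩
    by_contra hne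
    have htri2 : Std.Trichotomous (List.Shortlex r) := inferInstance
    rcases htri2.trichotomous u v with h
    by_cases h1 : List.Shortlex r u v
    · exact hv' ((hbad_iff _).2 ⟨hv, u, hu, huv.symm, h1⟩)
    · by_cases h2 : List.Shortlex r v u
      · exact hu' ((hbad_iff _).2 ⟨hu, v, hv, huv, h2⟩)
      · exact hne (h h1 h2)

/-- the language with one word -/
def singL (w : List A) : Language A := ({w} : Set (List A))

/-- singletons are regular -/
theorem isRegular_singleton (w : List A) : Language.IsRegular (singL w) := by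
  apply Language.IsRegular.of_finite_range_leftQuotient
  have : Set.range (Language.leftQuotient (singL w)) ⊆
      insert (∅ : Set (List A)) ((fun k : ℕ => ({w.drop k} : Set (List A))) '' Set.Iic w.length) := by
    rintro _ ⟨x, rfl⟩
    by_cases hx : x <+: w
    · right
      obtain ⟨z, rfl⟩ := hx
      refine ⟨x.length, by simp, ?_⟩
      ext y
      simp only [List.drop_left']
      constructor
      · intro hy
        have hy' : y = z := hy
        show x ++ y = x ++ z
        rw [hy']
      · intro hy
        have hy' : x ++ y = x ++ z := hy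
        show y = z
        exact List.append_cancel_left hy'
    · left
      ext y
      constructor
      · intro hy
        have hy' : x ++ y = w := hy
        exact hx ⟨y, hy'⟩
      · intro hy
        exact absurd hy (Set.notMem_empty y)
  exact Set.Finite.subset (((Set.finite_Iic w.length).image _).insert _) this

/-- making the empty word the representative of the identity -/
theorem exists_nil_mem {f : A → G} {L : Language A} (hL : L.IsRegular)
    (hs : ∀ g : G, ∃ w ∈ L, ev f w = g)
    (hu : ∀ u ∈ L, ∀ v ∈ L, ev f u = ev f v → u = v)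
    (hft : ∀ g : G, FT f L g) :
    ∃ L' : Language A, L'.IsRegular ∧ [] ∈ L' ∧ (∀ g : G, ∃ w ∈ L', ev f w = g) ∧
      (∀ u ∈ L', ∀ v ∈ L', ev f u = ev f v → u = v) ∧ (∀ g : G, FT f L' g) := by
  classical
  obtain ⟨u1, hu1, hu1'⟩ := hs 1
  refine ⟨(L ⊓ (singL u1)ᶜ) + singL [],
    (hL.inf (isRegular_singleton u1).compl).add (isRegular_singleton []), Or.inr rfl, ?_, ?_, ?_⟩
  · intro g
    by_cases hg : g = 1
    · exact ⟨[], Or.inr rfl, by simp [hg]⟩
    · obtain ⟨w, hw, hw'⟩ := hs g
      refine ⟨w, Or.inl ⟨hw, ?_⟩, hw'⟩
      intro h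
      have h' : w = u1 := h
      rw [h', hu1'] at hw'
      exact hg hw'.symm
  · have key : ∀ u, u ∈ L → u ≠ u1 → ev f u ≠ 1 := by
      intro u h1 h2 h3
      exact h2 (hu u h1 u1 hu1 (by rw [h3, hu1']))
    rintro u (⟨hu0, hu2⟩ | hu0) v (⟨hv0, hv2⟩ | hv0) huv
    · exact hu u hu0 v hv0 huv
    · have hv1 : v = [] := hv0
      subst hv1
      exact absurd huv (key u hu0 hu2)
    · have hv1 : u = [] := hu0
      subst hv1
      exact absurd huv.symm (key v hv0 hv2)
    · have h1 : u = [] := hu0
      have h2 : v = [] := hv0
      rw [h1, h2]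
  · intro g
    obtain ⟨F, hF, hF'⟩ := hft g
    obtain ⟨v0, hv0, hv0'⟩ := hs g
    obtain ⟨w0, hw0, hw0'⟩ := hs g⁻¹
    refine ⟨F ∪ {1} ∪ ((fun t => ev f (v0.take t)) '' Set.Iic v0.length) ∪
      ((fun t => (ev f (w0.take t))⁻¹) '' Set.Iic w0.length),
      ((hF.union (Set.finite_singleton 1)).union ((Set.finite_Iic _).image _)).union
        ((Set.finite_Iic _).image _), ?_⟩
    rintro u (⟨hu0, hu2⟩ | hu0) v (⟨hv1, hv2⟩ | hv1) huv t
    · exact Or.inl (Or.inl (Or.inl (hF' u hu0 v hv1 huv t)))
    · have hv3 : v = [] := hv1
      subst hv3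
      right
      have hu3 : u = w0 := by
        apply hu u hu0 w0 hw0
        rw [hw0', eq_inv_iff_mul_eq_one]
        simpa using huv
      subst hu3
      by_cases ht : t ≤ u.length
      · exact ⟨t, ht, by simp⟩
      · refine ⟨u.length, by simp, ?_⟩
        rw [List.take_of_length_le (by omega : u.length ≤ t)]
        simp
    · have hu3 : u = [] := hu0
      subst hu3
      left; right
      have hv3 : v = v0 := by
        apply hu v hv1 v0 hv0
        rw [hv0', ← huv]
        simp
      subst hv3
      by_cases ht : t ≤ v.length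
      · exact ⟨t, ht, by simp⟩
      · refine ⟨v.length, by simp, ?_⟩
        rw [List.take_of_length_le (by omega : v.length ≤ t)]
        simp
    · have h1 : u = [] := hu0
      have h2 : v = [] := hv1
      subst h1 h2
      left; left; right
      simp

end Pool.Agent.Lib.MP_f431e1_al
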