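import Mathlib
import Pool.Agent.Lib.MP_f431e1_al.Uniq

set_option autoImplicit false

open scoped Pointwise

namespace Pool.Agent.Lib.MP_f431e1_al

variable {G : Type} [Group G] {A : Type}

section Block

variable {σ : Type} (f : A → G) (M : DFA A σ) (K : ℕ) (z : σ → List A)

/-- the new letters: a state together with a block of length at most `K` -/
abbrev Letter (A σ : Type) (K : ℕ) : Type := σ × {l : List A // l.length ≤ K}

/-- value of a new letter -/
noncomputable def val (b : Letter A σ K) : G := by
  classical
  exact if b.2.1.length = K then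
    (ev f (z b.1))⁻¹ * ev f b.2.1 * ev f (z (M.evalFrom b.1 b.2.1))
  else (ev f (z b.1))⁻¹ * ev f b.2.1

/-- step function of the new automaton. `none` is dead, `some none` is final,
`some (some s)` is a milestone in state `s`. -/
noncomputable def bstep : Option (Option σ) → Letter A σ K → Option (Option σ)
  | some (some s), b => by
    classical
    exact if b.1 = s then
      (if b.2.1.length = K then
        (if M.evalFrom s b.2.1 |> fun t => M.evalFrom t (z t) ∈ M.accept then
          some (some (M.evalFrom s b.2.1)) else none)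
        else (if M.evalFrom s b.2.1 ∈ M.accept ∧ b.2.1 ≠ z s then some none else none))
      else none
  | _, _ => none

/-- the new automaton -/
noncomputable def bdfa : DFA (Letter A σ K) (Option (Option σ)) where
  step := bstep M K z
  start := some (some M.start)
  accept := {q | q ≠ none}

theorem bdfa_none (w : List (Letter A σ K)) : (bdfa M K z).evalFrom none w = none := by
  induction w with
  | nil => rfl
  | cons b w ih =>
    rw [DFA.evalFrom_cons]
    exact ih

theorem bdfa_final (w : List (Letter A σ K)) (h : (bdfa M K z).evalFrom (some none) w ≠ none) :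
    w = [] := by
  cases w with
  | nil => rfl
  | cons b w =>
    rw [DFA.evalFrom_cons] at h
    exact absurd (bdfa_none M K z w) h

/-- concatenation of the blocks -/
def flat (w : List (Letter A σ K)) : List A := w.flatMap (fun b => b.2.1)

@[simp] theorem flat_nil : flat K ([] : List (Letter A σ K)) = [] := rfl

@[simp] theorem flat_cons (b : Letter A σ K) (w : List (Letter A σ K)) :
    flat K (b :: w) = b.2.1 ++ flat K w := by
  simp [flat]

/-- the tail word attached to a state -/
def tl : Option (Option σ) → List A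
  | some (some s) => z s
  | _ => []

/-- decoding of a word over the new alphabet, starting in state `s` -/
noncomputable def dec (s : σ) (w : List (Letter A σ K)) : List A :=
  flat K w ++ tl z ((bdfa M K z).evalFrom (some (some s)) w)

theorem dec_nil (s : σ) : dec M K z s [] = z s := by
  simp [dec, tl]

/-- inversion of a non-dead run -/
theorem run_cons {s : σ} {b : Letter A σ K} {w : List (Letter A σ K)}
    (h : (bdfa M K z).evalFrom (some (some s)) (b :: w) ≠ none) :
    b.1 = s ∧
    ((b.2.1.length = K ∧
        M.evalFrom (M.evalFrom s b.2.1) (z (M.evalFrom s b.2.1)) ∈ M.accept ∧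
        (bdfa M K z).evalFrom (some (some (M.evalFrom s b.2.1))) w ≠ none ∧
        dec M K z s (b :: w) = b.2.1 ++ dec M K z (M.evalFrom s b.2.1) w) ∨
      (b.2.1.length < K ∧ M.evalFrom s b.2.1 ∈ M.accept ∧ b.2.1 ≠ z s ∧ w = [] ∧
        dec M K z s (b :: w) = b.2.1)) := by
  rw [DFA.evalFrom_cons] at h
  by_cases h1 : b.1 = s
  · refine ⟨h1, ?_⟩
    by_cases h2 : b.2.1.length = K
    · left
      by_cases h3 : M.evalFrom (M.evalFrom s b.2.1) (z (M.evalFrom s b.2.1)) ∈ M.accept
      · have hst : (bdfa M K z).step (some (some s)) b = some (some (M.evalFrom s b.2.1)) := by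
          simp [bdfa, bstep, h1, h2, h3]
        refine ⟨h2, h3, ?_, ?_⟩
        · rw [hst] at h
          exact h
        · simp [dec, hst]
      · have hst : (bdfa M K z).step (some (some s)) b = none := by
          simp [bdfa, bstep, h1, h2, h3]
        rw [hst, bdfa_none] at h
        exact absurd rfl h
    · right
      have h2' : b.2.1.length < K := lt_of_le_of_ne b.2.2 h2
      by_cases h3 : M.evalFrom s b.2.1 ∈ M.accept ∧ b.2.1 ≠ z s
      · have hst : (bdfa M K z).step (some (some s)) b = some none := by
          simp [bdfa, bstep, h1, h2, h3.1, h3.2]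
        have hw : w = [] := by
          apply bdfa_final M K z w
          rw [hst] at h
          exact h
        subst hw
        refine ⟨h2', h3.1, h3.2, rfl, ?_⟩
        simp [dec, hst, tl]
      · have hst : (bdfa M K z).step (some (some s)) b = none := by
          simp only [bdfa, bstep, h1, h2, if_true, if_false, if_neg h3]
        rw [hst, bdfa_none] at h
        exact absurd rfl h
  · have hst : (bdfa M K z).step (some (some s)) b = none := by
      simp [bdfa, bstep, h1]
    rw [hst, bdfa_none] at h
    exact absurd rfl h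

theorem val_block {b : Letter A σ K} (h : b.2.1.length = K) :
    val f M K z b = (ev f (z b.1))⁻¹ * ev f b.2.1 * ev f (z (M.evalFrom b.1 b.2.1)) := by
  simp [val, h]

theorem val_final {b : Letter A σ K} (h : b.2.1.length < K) :
    val f M K z b = (ev f (z b.1))⁻¹ * ev f b.2.1 := by
  simp [val, h.ne]

theorem ev_dec (s : σ) (w : List (Letter A σ K))
    (h : (bdfa M K z).evalFrom (some (some s)) w ≠ none) :
    ev f (dec M K z s w) = ev f (z s) * ev (val f M K z) w := by
  induction w generalizing s with
  | nil => simp [dec_nil]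
  | cons b w ih =>
    obtain ⟨h1, ⟨h2, h3, h4, h5⟩ | ⟨h2, h3, h4, h5, h6⟩⟩ := run_cons M K z h
    · rw [h5, ev_append, ih _ h4, ev_cons, val_block f M K z h2, h1]
      group
    · subst h5
      rw [h6, ev_cons, ev_nil, val_final f M K z h2, h1]
      group

theorem dec_mem (s : σ) (hs : M.evalFrom s (z s) ∈ M.accept) (w : List (Letter A σ K))
    (h : (bdfa M K z).evalFrom (some (some s)) w ≠ none) :
    M.evalFrom s (dec M K z s w) ∈ M.accept := by
  induction w generalizing s with
  | nil => simpa [dec_nil] using hs
  | cons b w ih =>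
    obtain ⟨h1, ⟨h2, h3, h4, h5⟩ | ⟨h2, h3, h4, h5, h6⟩⟩ := run_cons M K z h
    · rw [h5, DFA.evalFrom_of_append]
      exact ih _ h3 h4
    · rw [h6]
      exact h3

theorem dec_surj (hK : 0 < K) (hz : ∀ s, (∃ u, M.evalFrom s u ∈ M.accept) →
      M.evalFrom s (z s) ∈ M.accept) (n : ℕ) (s : σ) (u : List A) (hn : u.length ≤ n)
    (hu : M.evalFrom s u ∈ M.accept) :
    ∃ w, (bdfa M K z).evalFrom (some (some s)) w ≠ none ∧ dec M K z s w = u := by
  induction n generalizing s u with
  | zero =>
    have : u = [] := by simpa using hn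
    subst this
    by_cases h : z s = []
    · refine ⟨[], by simp, ?_⟩
      rw [dec_nil, h]
    · have hst : (bdfa M K z).step (some (some s)) ⟨s, ⟨[], by simp⟩⟩ = some none := by
        have hu' : s ∈ M.accept := by simpa using hu
        simp [bdfa, bstep, hK.ne, (Ne.symm h), hu']
      refine ⟨[⟨s, ⟨[], by simp⟩⟩], ?_, ?_⟩
      · rw [DFA.evalFrom_singleton, hst]
        simp
      · simp [dec, hst, tl]
  | succ n ih =>
    by_cases hlen : K ≤ u.length
    · set l := u.take K with hl
      have hlK : l.length = K := by simp [hl, hlen]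
      have hacc : M.evalFrom (M.evalFrom s l) (u.drop K) ∈ M.accept := by
        rw [← DFA.evalFrom_of_append, hl, List.take_append_drop]
        exact hu
      obtain ⟨w, hw, hw'⟩ := ih (M.evalFrom s l) (u.drop K) (by simp; omega) hacc
      have hst : (bdfa M K z).step (some (some s)) ⟨s, ⟨l, hlK.le⟩⟩ =
          some (some (M.evalFrom s l)) := by
        have := hz _ ⟨_, hacc⟩
        simp [bdfa, bstep, hlK, this]
      have hne : (bdfa M K z).evalFrom (some (some s)) (⟨s, ⟨l, hlK.le⟩⟩ :: w) ≠ none := by
        rw [DFA.evalFrom_cons, hst]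
        exact hw
      refine ⟨_, hne, ?_⟩
      obtain ⟨h1, ⟨h2, h3, h4, h5⟩ | ⟨h2, h3, h4, h5, h6⟩⟩ := run_cons M K z hne
      · rw [h5]
        simp only
        rw [hw', hl, List.take_append_drop]
      · simp only at h2
        omega
    · push Not at hlen
      by_cases h : z s = u
      · exact ⟨[], by simp, by rw [dec_nil, h]⟩
      · have hst : (bdfa M K z).step (some (some s)) ⟨s, ⟨u, hlen.le⟩⟩ = some none := by
          simp [bdfa, bstep, hlen.ne, (Ne.symm h), hu]
        refine ⟨[⟨s, ⟨u, hlen.le⟩⟩], ?_, ?_⟩
        · rw [DFA.evalFrom_singleton, hst]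
          simp
        · simp [dec, hst, tl]

theorem dec_inj (hzK : ∀ s, (z s).length < K) (s : σ) (w w' : List (Letter A σ K))
    (h : (bdfa M K z).evalFrom (some (some s)) w ≠ none)
    (h' : (bdfa M K z).evalFrom (some (some s)) w' ≠ none)
    (heq : dec M K z s w = dec M K z s w') : w = w' := by
  induction w generalizing s w' with
  | nil =>
    cases w' with
    | nil => rfl
    | cons b' w' =>
      exfalso
      rw [dec_nil] at heq
      obtain ⟨h1, ⟨h2, h3, h4, h5⟩ | ⟨h2, h3, h4, h5, h6⟩⟩ := run_cons M K z h'
      · have := hzK s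
        rw [heq, h5, List.length_append] at this
        omega
      · exact h4 (by rw [heq, h6])
  | cons b w ih =>
    cases w' with
    | nil =>
      exfalso
      rw [dec_nil] at heq
      obtain ⟨h1, ⟨h2, h3, h4, h5⟩ | ⟨h2, h3, h4, h5, h6⟩⟩ := run_cons M K z h
      · have := hzK s
        rw [← heq, h5, List.length_append] at this
        omega
      · exact h4 (by rw [← heq, h6])
    | cons b' w' =>
      obtain ⟨g1, ⟨g2, g3, g4, g5⟩ | ⟨g2, g3, g4, g5, g6⟩⟩ := run_cons M K z h <;>
      obtain ⟨h1, ⟨h2, h3, h4, h5⟩ | ⟨h2, h3, h4, h5, h6⟩⟩ := run_cons M K z h'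
      · rw [g5, h5] at heq
        obtain ⟨e1, e2⟩ := List.append_inj heq (by rw [g2, h2])
        have hbb : b = b' := by
          rcases b with ⟨s1, ⟨l1, hl1⟩⟩
          rcases b' with ⟨s2, ⟨l2, hl2⟩⟩
          simp only at g1 h1 e1
          subst g1 e1
          rw [h1]
        subst hbb
        rw [ih _ _ g4 h4 e2]
      · exfalso
        have := congrArg List.length heq
        rw [g5, h6, List.length_append] at this
        omega
      · exfalso
        have := congrArg List.length heq
        rw [h5, g6, List.length_append] at this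
        omega
      · rw [g6, h6] at heq
        rw [g5, h5]
        rcases b with ⟨s1, ⟨l1, hl1⟩⟩
        rcases b' with ⟨s2, ⟨l2, hl2⟩⟩
        simp only at g1 h1 heq
        subst g1 heq
        rw [h1]

/-- comparison of the prefixes -/
theorem dec_take (hzK : ∀ s, (z s).length < K) (s : σ) (w : List (Letter A σ K))
    (h : (bdfa M K z).evalFrom (some (some s)) w ≠ none) (t : ℕ) :
    ∃ c ∈ (insert 1 (Set.range (fun s => ev f (z s))) : Set G),
      ev f (z s) * ev (val f M K z) (w.take t) = ev f ((dec M K z s w).take (K * t)) * c := by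
  induction w generalizing s t with
  | nil =>
    cases t with
    | zero => exact ⟨ev f (z s), Or.inr ⟨s, rfl⟩, by simp⟩
    | succ t =>
      refine ⟨1, Or.inl rfl, ?_⟩
      have h1 := hzK s
      have h2 : K ≤ K * (t + 1) := Nat.le_mul_of_pos_right K (by omega)
      rw [dec_nil, List.take_of_length_le (by omega : (z s).length ≤ K * (t + 1))]
      simp
  | cons b w ih =>
    cases t with
    | zero => exact ⟨ev f (z s), Or.inr ⟨s, rfl⟩, by simp⟩
    | succ t =>
      obtain ⟨h1, ⟨h2, h3, h4, h5⟩ | ⟨h2, h3, h4, h5, h6⟩⟩ := run_cons M K z h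
      · obtain ⟨c, hc, hc'⟩ := ih (M.evalFrom s b.2.1) h4 t
        refine ⟨c, hc, ?_⟩
        have e1 : (b.2.1 ++ dec M K z (M.evalFrom s b.2.1) w).take (K * (t + 1)) =
            b.2.1 ++ (dec M K z (M.evalFrom s b.2.1) w).take (K * t) := by
          rw [List.take_append]
          rw [List.take_of_length_le (by rw [h2, mul_add, mul_one]; omega)]
          congr 2
          rw [h2, mul_add, mul_one]
          omega
        rw [h5, e1, ev_append, mul_assoc, ← hc', List.take_succ_cons, ev_cons,
          val_block f M K z h2, h1]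
        group
      · subst h5
        refine ⟨1, Or.inl rfl, ?_⟩
        rw [h6, List.take_succ_cons, List.take_nil, ev_cons, ev_nil, val_final f M K z h2, h1]
        rw [List.take_of_length_le]
        · group
        · have : K ≤ K * (t + 1) := Nat.le_mul_of_pos_right K (by omega)
          omega

end Block

/-- The main construction. -/
theorem exists_prefix_closed [Finite A] {f : A → G} {L : Language A} (hL : L.IsRegular)
    (hnil : [] ∈ L)
    (hs : ∀ g : G, ∃ w ∈ L, ev f w = g)
    (hu : ∀ u ∈ L, ∀ v ∈ L, ev f u = ev f v → u = v)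
    (hft : ∀ g : G, FT f L g) :
    ∃ (B : Type) (_ : Finite B) (f' : B → G) (L' : Language B),
      (∃ (σ : Type) (_ : Finite σ) (M : DFA B σ), M.accepts = L') ∧
      (∀ g : G, ∃ w ∈ L', ev f' w = g) ∧
      (∀ g : G, FT f' L' g) ∧
      (∀ u v : List B, u ++ v ∈ L' → u ∈ L') ∧
      (∀ u ∈ L', ∀ v ∈ L', ev f' u = ev f' v → u = v) := by
  classical
  obtain ⟨σ, hσ, M, rfl⟩ := hL
  have : Finite σ := Finite.of_fintype σ
  -- completions
  let z : σ → List A := fun s =>
    if s ∈ M.accept then [] else
      if h : ∃ u, M.evalFrom s u ∈ M.accept then h.choose else []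
  have hz1 : ∀ s, s ∈ M.accept → z s = [] := by
    intro s h
    simp [z, h]
  have hz2 : ∀ s, (∃ u, M.evalFrom s u ∈ M.accept) → M.evalFrom s (z s) ∈ M.accept := by
    intro s h
    by_cases h1 : s ∈ M.accept
    · rw [hz1 s h1]
      exact h1
    · simp only [z, if_neg h1, dif_pos h]
      exact h.choose_spec
  obtain ⟨K, hK, hzK⟩ : ∃ K, 0 < K ∧ ∀ s, (z s).length < K := by
    obtain ⟨N, hN⟩ := (Set.finite_range (fun s => (z s).length)).bddAbove
    refine ⟨N + 1, by omega, fun s => ?_⟩
    have := hN ⟨s, rfl⟩
    simp only at this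
    omega
  have hstart : M.start ∈ M.accept := hnil
  have hzs : z M.start = [] := hz1 _ hstart
  have hlet : Finite {l : List A // l.length ≤ K} := (List.finite_length_le A K).to_subtype
  have hinv : ∀ w, w ∈ (bdfa M K z).accepts ↔
      (bdfa M K z).evalFrom (some (some M.start)) w ≠ none := fun w => Iff.rfl
  have hev : ∀ w ∈ (bdfa M K z).accepts, ev f (dec M K z M.start w) = ev (val f M K z) w := by
    intro w hw
    rw [ev_dec f M K z M.start w hw, hzs]
    simp
  have hmem : ∀ w ∈ (bdfa M K z).accepts, dec M K z M.start w ∈ M.accepts := by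
    intro w hw
    exact dec_mem M K z M.start (by rw [hzs]; exact hstart) w hw
  refine ⟨Letter A σ K, inferInstance, val f M K z, (bdfa M K z).accepts,
    ⟨_, inferInstance, bdfa M K z, rfl⟩, ?_, ?_, ?_, ?_⟩
  · intro g
    obtain ⟨u, hu1, hu2⟩ := hs g
    obtain ⟨w, hw, hw'⟩ := dec_surj M K z hK hz2 u.length M.start u le_rfl hu1
    refine ⟨w, hw, ?_⟩
    rw [← hev w hw, hw', hu2]
  · intro g
    obtain ⟨F, hF, hF'⟩ := hft g
    let C : Set G := insert 1 (Set.range (fun s => ev f (z s)))
    have hC : C.Finite := (Set.finite_range _).insert 1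
    refine ⟨C⁻¹ * F * C, (hC.inv.mul hF).mul hC, ?_⟩
    intro w hw w' hw' hww t
    have h1 := hF' _ (hmem w hw) _ (hmem w' hw') (by rw [hev w hw, hev w' hw', hww]) (K * t)
    obtain ⟨c, hc, hc'⟩ := dec_take f M K z hzK M.start w hw t
    obtain ⟨d, hd, hd'⟩ := dec_take f M K z hzK M.start w' hw' t
    rw [hzs, ev_nil, one_mul] at hc' hd'
    rw [hc', hd']
    refine Set.mem_mul.2 ⟨_, Set.mem_mul.2 ⟨c⁻¹, Set.inv_mem_inv.2 hc, _, h1, rfl⟩, d, hd, ?_⟩
    group
  · intro u v huv
    rw [hinv] at huv ⊢
    intro h
    rw [DFA.evalFrom_of_append, h, bdfa_none] at huv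
    exact huv rfl
  · intro w hw w' hw' hww
    apply dec_inj M K z hzK M.start w w' hw hw'
    apply hu _ (hmem w hw) _ (hmem w' hw')
    rw [hev w hw, hev w' hw', hww]

end Pool.Agent.Lib.MP_f431e1_al
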